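import Pool.Agent.Helper36_F5H.StmtsK2

/-!
MP_f5cbfa_nt, squad F5H, row K_LRG: large vectors.
-/

set_option autoImplicit false

open MeasureTheory

namespace Pool.Agent.F5H.K2.H48

open Pool.Agent.Helper68_F5 Pool.Agent.F5H.W36 Pool.Agent.F5H.K2

theorem lev_of_inZ {g : ℤ × ℤ →+ ℂ} {P R S r R₁ ω₁ ω₂ V₁ V₂ V₃ lam : ℝ} {v h : T3}
    {e₁ e₂ e₃ : ℂ} {κ₁ κ₂ κ₃ : ℝ} (hP : 1 ≤ P) (hR : 64 * P ^ 3 ≤ R) (hRV : R ≤ 2 * V₁)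
    (hVS : V₁ ^ 3 ≤ S) (h21 : V₂ ≤ V₁) (h32 : V₃ ≤ V₂) (hr : 8 * P * r ≤ V₂)
    (n₁ : ‖g h.1‖ ≤ V₁) (n₂ : ‖g h.2.1‖ ≤ V₂) (n₃ : ‖g h.2.2‖ ≤ V₃)
    (m₂ : V₂ ≤ P * ‖g h.2.1‖) (hV₂ : 0 < V₂)
    (p : Pt P S 0 r (g h.1) (g h.2.1) (g h.2.2) e₁ e₂ e₃ κ₁ κ₂ κ₃)
    (hz : InZ P S R₁ ω₁ ω₂ (g h.1) (g h.2.1) (g h.2.2) e₁ e₂ e₃ κ₁ κ₂ κ₃ (g v.1) (g v.2.1)
      (g v.2.2)) (hlo : R ≤ ‖g v.1‖)
    (hG : |Gm e₁ e₂ e₃ (g h.1) (g h.2.1) (g h.2.2)| ≤ lam) :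
    Lev (2 * P) V₂ (21504 * P ^ 6 * (lam + V₁ ^ 3 / R)) (Cf g v) g (g v.1) (g v.2.1)
      (g v.2.2) h := by
  obtain ⟨c, hc, a₁, a₂, a₃, _⟩ := hz
  have hP3 : P ≤ P ^ 3 := le_self_pow₀ hP (by norm_num)
  have hc' : ‖g v.1‖ - P ≤ |c| := by
    have h1 : ‖(c : ℂ) * e₁‖ = |c| := by
      rw [norm_mul, p.he₁, mul_one, Complex.norm_real, Real.norm_eq_abs]
    have h2 := norm_sub_norm_le (g v.1) ((c : ℂ) * e₁)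
    rw [h1] at h2
    linarith
  have hn : Near P c e₁ e₂ e₃ (g v.1) (g v.2.1) (g v.2.2) := ⟨a₁, a₂, a₃⟩
  rcases le_total 0 c with h0 | h0
  · rw [abs_of_nonneg h0] at hc'
    exact lev_pos hP hR hRV hVS h21 h32 hr n₁ n₂ n₃ m₂ hV₂ p hn (by linarith) hG
  · rw [abs_of_nonpos h0] at hc'
    refine lev_pos hP hR hRV hVS h21 h32 hr n₁ n₂ n₃ m₂ hV₂ (Pt.neg p) (Near.neg hn)
      (by linarith) ?_
    rw [Gm_neg, abs_neg]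
    exact hG

/-- K_LRG -/
theorem lrg (wsc : WSCStmt) : LRGStmt := by
  classical
  obtain ⟨K₀, hK₀, hwc⟩ := wsc
  refine ⟨2 * K₀, by linarith, ?_⟩
  intro g hg P S r R₁ ω₁ ω₂ V₁ V₂ V₃ w R₀ E hP hS hVS hV3 h32 h21 hPV hRV hr h8 hω₁ hω₂ hw0 hR₀
    hE0 hE 𝓗 𝓥 h𝓗 h𝓥
  have hV2 : 1 ≤ V₂ := by linarith
  have hV1 : 1 ≤ V₁ := by linarith
  have hmin : 0 ≤ min r V₃ := le_min (by linarith) (by linarith)
  obtain ⟨L, hL⟩ : ∃ L, L = 1 + Real.log V₁ := ⟨_, rfl⟩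
  have hlog := Real.log_nonneg hV1
  have hL1 : 1 ≤ L := by rw [hL]; linarith
  rw [← hL]
  have hVS3 : V₁ ^ 3 ≤ S := by
    have h1 : (V₁ ^ 3) ^ 2 ≤ S ^ 2 := by
      calc (V₁ ^ 3) ^ 2 = V₁ ^ 6 := by ring
        _ ≤ V₁ ^ 7 := pow_le_pow_right₀ hV1 (by norm_num)
        _ ≤ S ^ 2 := hVS
    exact le_of_sq_le_sq h1 hS.le
  obtain ⟨f, hf⟩ : ∃ f : T3 × T3 → ENNReal, f = fun p => volume (HitW P S r R₁ ω₁ ω₂
    (w * V₁ ^ 3) (g p.2.1) (g p.2.2.1) (g p.2.2.2) (g p.1.1) (g p.1.2.1) (g p.1.2.2)) := ⟨_, rfl⟩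
  have hfne : ∀ p, f p ≠ 0 → (HitW P S r R₁ ω₁ ω₂ (w * V₁ ^ 3) (g p.2.1)
    (g p.2.2.1) (g p.2.2.2) (g p.1.1) (g p.1.2.1) (g p.1.2.2)).Nonempty := by
    intro p hp
    by_contra h
    rw [Set.not_nonempty_iff_eq_empty] at h
    apply hp
    rw [hf]
    simp only
    rw [h, measure_empty]
  have hP3 : 1 ≤ P ^ 3 := one_le_pow₀ hP
  have hPP3 : P ≤ P ^ 3 := le_self_pow₀ hP (by norm_num)
  have hR₀1 : 300000 ≤ R₀ := by linarith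
  obtain ⟨N, hN⟩ : ∃ N, N = ⌊2 * Real.log V₁⌋₊ + 1 := ⟨_, rfl⟩
  have hNL : (N : ℝ) ≤ 2 * L := by
    rw [hN, hL]
    push_cast
    have := Nat.floor_le (by linarith : 0 ≤ 2 * Real.log V₁)
    linarith
  obtain ⟨M, hM⟩ : ∃ M, M = K₀ * P ^ 60 * L ^ 6 * (V₁ ^ 2 * V₂ ^ 2 * (V₃ * min r V₃)) * E :=
    ⟨_, rfl⟩
  have hM0 : 0 ≤ M := by rw [hM]; positivity
  obtain ⟨𝓟, h𝓟⟩ : ∃ 𝓟 : Finset (T3 × T3), 𝓟 = 𝓥 ×ˢ 𝓗 := ⟨_, rfl⟩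
  have hmem : ∀ p ∈ 𝓟, ‖g p.2.1‖ ≤ V₁ ∧ ‖g p.2.2.1‖ ≤ V₂ ∧ ‖g p.2.2.2‖ ≤ V₃ ∧
      V₂ ≤ P * ‖g p.2.2.1‖ ∧ V₃ ≤ P * ‖g p.2.2.2‖ := by
    intro p hp
    rw [h𝓟, Finset.mem_product] at hp
    exact h𝓗 _ hp.2
  have hmem' : ∀ p ∈ 𝓟, R₀ ≤ ‖g p.1.1‖ := by
    intro p hp
    rw [h𝓟, Finset.mem_product] at hp
    exact h𝓥 _ hp.1
  -- one scale
  have hscale : ∀ j : ℕ, ∑ p ∈ 𝓟.filter (fun p => R₀ * 2 ^ j ≤ ‖g p.1.1‖ ∧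
      ‖g p.1.1‖ ≤ 2 * (R₀ * 2 ^ j)), f p ≤ ENNReal.ofReal M := by
    intro j
    obtain ⟨R, hR⟩ : ∃ R, R = R₀ * 2 ^ j := ⟨_, rfl⟩
    rw [← hR]
    have hpow : (1 : ℝ) ≤ 2 ^ j := one_le_pow₀ (by norm_num)
    have hRR₀ : R₀ ≤ R := by
      rw [hR]
      nlinarith
    have hRR : 300000 * P ^ 3 ≤ R := by linarith
    have hR1 : 1 ≤ R := by linarith
    have hR0 : 0 < R := by linarith
    rw [← Finset.sum_filter_ne_zero]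
    obtain ⟨𝓒, h𝓒⟩ : ∃ 𝓒, 𝓒 = (𝓟.filter (fun p => R ≤ ‖g p.1.1‖ ∧
      ‖g p.1.1‖ ≤ 2 * R)).filter (fun p => f p ≠ 0) := ⟨_, rfl⟩
    rw [← h𝓒]
    by_cases hne : 𝓒.Nonempty
    swap
    · rw [Finset.not_nonempty_iff_eq_empty] at hne
      rw [hne, Finset.sum_empty]
      exact bot_le
    obtain ⟨p₀, hp₀⟩ := hne
    have hRle : R ≤ R₁ + P := by
      rw [h𝓒, Finset.mem_filter, Finset.mem_filter] at hp₀
      obtain ⟨θ, _, e₁, e₂, κ₁, κ₂, κ₃, hp, hz, _⟩ := hfne _ hp₀.2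
      exact le_trans hp₀.1.2.1 (InZ.crude hp hz).1
    have hRV2 : R ≤ 2 * V₁ := by linarith
    have hpair : ∀ p ∈ 𝓒, Pair g (2 * P) R S V₁ V₂ V₃ (5 * ω₁ + 16640000 * P ^ 6 * (V₁ / R))
        (5 * ω₂ + 16640000 * P ^ 6 * (V₂ / R)) (2 * R * min r V₃ + 90000 * P ^ 3 * V₃) p.1
          p.2 := by
      intro p hp
      rw [h𝓒, Finset.mem_filter, Finset.mem_filter] at hp
      obtain ⟨θ, _, e₁, e₂, κ₁, κ₂, κ₃, hpt, hz, _⟩ := hfne _ hp.2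
      have hm := hmem p hp.1.1
      refine pair_of_inZ hP (by linarith) (by linarith) hVS3 h21 h32 (by linarith) ?_ ?_
        hm.1 hm.2.1 hm.2.2.1 ?_ hpt hz hp.1.2.1 hp.1.2.2
      · rw [mul_zero]; linarith
      · rw [mul_zero]; linarith
      · refine le_min hpt.slab ?_
        refine le_trans (abs_sp_le _ _) ?_
        rw [norm_ee, one_mul]
        exact hm.2.2.1
    have hlev : ∀ p ∈ 𝓒, Lev (2 * P) V₂ (21504 * P ^ 6 * (V₁ ^ 3 * (w + 1 / R))) (Cf g p.1) g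
        (g p.1.1) (g p.1.2.1) (g p.1.2.2) p.2 := by
      intro p hp
      rw [h𝓒, Finset.mem_filter, Finset.mem_filter] at hp
      obtain ⟨θ, _, e₁, e₂, κ₁, κ₂, κ₃, hpt, hz, hG⟩ := hfne _ hp.2
      have hm := hmem p hp.1.1
      have e : V₁ ^ 3 * (w + 1 / R) = w * V₁ ^ 3 + V₁ ^ 3 / R := by ring
      rw [e]
      exact lev_of_inZ hP (by linarith) hRV2 hVS3 h21 h32 h8 hm.1 hm.2.1 hm.2.2.1 hm.2.2.2.1
        (by linarith) hpt hz hp.1.2.1 hG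
    have hfp : ∀ p ∈ 𝓒, f p ≤ ENNReal.ofReal (min (80 * P / R) (40 * P * (min r V₃ / V₃))) := by
      intro p hp
      rw [h𝓒, Finset.mem_filter, Finset.mem_filter] at hp
      rw [hf]
      have hh := hit_le (P := P) (S := S) (δ := 0) (r := r) (R₁ := R₁) (ω₁ := ω₁) (ω₂ := ω₂)
        (H₁ := g p.2.1) (H₂ := g p.2.2.1) (H₃ := g p.2.2.2) (v₁ := g p.1.1) (v₂ := g p.1.2.1)
        (v₃ := g p.1.2.2) (R := R) (V₃ := V₃) (t₀ := min r V₃) hP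
        (by linarith) hp.1.2.1 (by linarith) (hmem p hp.1.1).2.2.2.2 (by linarith) rfl
      refine le_trans (measure_mono ?_) hh
      rintro θ ⟨hθ, e₁, e₂, κ₁, κ₂, κ₃, hpt, hz, _⟩
      exact ⟨hθ, e₁, e₂, κ₁, κ₂, κ₃, hpt, hz⟩
    refine le_trans (hwc g hg P R S V₁ V₂ V₃ r ω₁ ω₂ (V₁ ^ 3 * (w + 1 / R)) (Cf g) hP hRR hRV2 hS
      hVS hV3 h32 h21 hr hω₁ hω₂ (by positivity) 𝓒 f hpair hlev hfp) ?_
    apply ENNReal.ofReal_le_ofReal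
    rw [hM, ← hL]
    refine mul_le_mul_of_nonneg_left (hE R hRR₀ hRle) (by positivity)
  -- the decomposition
  have hdec : ∀ p ∈ 𝓟, f p ≤ ∑ j ∈ Finset.range N,
      (if R₀ * 2 ^ j ≤ ‖g p.1.1‖ ∧ ‖g p.1.1‖ ≤ 2 * (R₀ * 2 ^ j) then f p else 0) := by
    intro p hp
    by_cases h0 : f p = 0
    · rw [h0]; exact bot_le
    have h1 := hmem' p hp
    obtain ⟨θ, _, e₁, e₂, κ₁, κ₂, κ₃, hpt, hz, _⟩ := hfne _ h0
    have hcr := (InZ.crude hpt hz).1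
    have h2 : 1 ≤ ‖g p.1.1‖ / R₀ := by rw [le_div_iff₀ (by linarith)]; linarith
    obtain ⟨j, hj1, hj2⟩ := exists_nat_pow_near h2 (by norm_num : (1 : ℝ) < 2)
    have hj3 : (2 : ℝ) ^ j ≤ V₁ := by
      refine le_trans hj1 ?_
      rw [div_le_iff₀ (by linarith)]
      nlinarith
    have hjN : j ∈ Finset.range N := by
      rw [Finset.mem_range, hN]
      exact cnt_pow_le hj3
    rw [le_div_iff₀ (by linarith)] at hj1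
    rw [div_lt_iff₀ (by linarith)] at hj2
    have hcond : R₀ * 2 ^ j ≤ ‖g p.1.1‖ ∧ ‖g p.1.1‖ ≤ 2 * (R₀ * 2 ^ j) := by
      constructor
      · linarith
      · rw [pow_succ] at hj2
        linarith
    have h3 := Finset.single_le_sum (s := Finset.range N)
      (f := fun j => if R₀ * 2 ^ j ≤ ‖g p.1.1‖ ∧ ‖g p.1.1‖ ≤ 2 * (R₀ * 2 ^ j)
        then f p else 0) (fun _ _ => bot_le) hjN
    simp only [if_pos hcond] at h3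
    exact h3
  have hfin : ∑ p ∈ 𝓟, f p ≤ ENNReal.ofReal (N * M) := by
    refine le_trans (Finset.sum_le_sum hdec) ?_
    rw [Finset.sum_comm]
    refine sum_ofReal_le (Finset.range N) _ hM0 ?_ (by rw [Finset.card_range])
    intro j _
    rw [← Finset.sum_filter]
    exact hscale j
  rw [← h𝓟]
  rw [hf] at hfin
  refine le_trans hfin ?_
  apply ENNReal.ofReal_le_ofReal
  calc (N : ℝ) * M ≤ 2 * L * M := mul_le_mul_of_nonneg_right hNL hM0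
    _ = _ := by rw [hM]; ring

end Pool.Agent.F5H.K2.H48
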