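import Pool.Agent.F5H.StmtsG
import Pool.Agent.Helper9_F5H.Lpx

/-!
MP_f5cbfa_nt, squad F5H, block C, row I3: the windows.
-/

set_option autoImplicit false

open MeasureTheory Complex ComplexConjugate

namespace Pool.Agent.F5H.BC.H48

open Pool.Agent.BTL Pool.Agent.F5S Pool.Agent.F5H Pool.Agent.F5.H58 Pool.Agent.F5H.BC

section

variable {T Q : ℝ} {V : Fin 3 → ℝ} {k0 : ℝ} {s : Bool × Bool} {h k : R6} {A : ℝ × ℝ × ℝ}

theorem q50 (X : Ctr T Q V k0 s h k A) : 1 / Q ^ 50 ≤ 1 / 64 := by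
  have hQ := X.Q0
  have h1 : Q ^ 1 ≤ Q ^ 50 := X.pw (by norm_num)
  rw [pow_one] at h1
  have h2 : (64 : ℝ) ≤ Q ^ 50 := by linarith [X.hQ]
  exact one_div_le_one_div_of_le (by norm_num) h2

theorem q60 (X : Ctr T Q V k0 s h k A) : 1 / Q ^ 60 ≤ 1 / 64 := by
  have hQ := X.Q0
  have h1 : Q ^ 1 ≤ Q ^ 60 := X.pw (by norm_num)
  rw [pow_one] at h1
  have h2 : (64 : ℝ) ≤ Q ^ 60 := by linarith [X.hQ]
  exact one_div_le_one_div_of_le (by norm_num) h2

theorem r1_le (X : Ctr T Q V k0 s h k A) : r1 T Q V k0 ≤ k0⁻¹ * (1 / Q ^ 60) := by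
  unfold r1 rhA
  rw [mul_one_div]
  exact div_le_div_of_nonneg_right (min_le_left _ _) (pow_pos X.Q0 _).le

theorem r1_le' (X : Ctr T Q V k0 s h k A) : r1 T Q V k0 ≤ 1 / Q ^ 60 := by
  refine (r1_le X).trans ?_
  have h1 : k0⁻¹ ≤ 1 := inv_le_one_of_one_le₀ X.k1
  have h2 : 0 ≤ 1 / Q ^ 60 := by
    have := X.Q0
    positivity
  calc k0⁻¹ * (1 / Q ^ 60) ≤ 1 * (1 / Q ^ 60) := mul_le_mul_of_nonneg_right h1 h2
    _ = 1 / Q ^ 60 := one_mul _

theorem r2_le (X : Ctr T Q V k0 s h k A) (j : ℕ) :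
    r2 T Q V k0 h A j ≤ sF T A h * (1 / Q ^ 60) := by
  unfold r2 rhZ
  rw [mul_one_div]
  refine div_le_div_of_nonneg_right ?_ (pow_pos X.Q0 _).le
  calc sF T A h * min 1 (dl k0 j * k0 ^ 2 * ze T V)⁻¹ ≤ sF T A h * 1 :=
        mul_le_mul_of_nonneg_left (min_le_left _ _) X.S0.le
    _ = sF T A h := mul_one _

theorem D0_UX (X : Ctr T Q V k0 s h k A) : ∀ w ∈ D0 (Pc A s h) (1 / Q ^ 50) (3 / 4 * sF T A h)
    (5 / 4 * sF T A h) 4, qw (Pc A s h) (bc A h) w ∈ UX := by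
  intro w hw
  have hS0 := X.S0
  have h1 : 0 ≤ w.1 := by
    have := hw.1
    linarith
  have h2 : w.1 ≤ 2 * sF T A h := by
    have := hw.2.1
    linarith
  exact (X.ac (xw (Pc A s h) w) (D0_KK X.std (q50 X) (by norm_num) hw) (bc A h) X.bc_le w.1 h1
    (X.zz h2)).1

theorem meas_Ew (X : Ctr T Q V k0 s h k A) : MeasurableSet (Ew T Q V s h k A) := by
  have hc := isClosed_D0 (Pc A s h) (1 / Q ^ 50) (3 / 4 * sF T A h) (5 / 4 * sF T A h) 4
  have hcl : ∀ l, ContinuousOn (fun w : ℝ × (Fin 3 → ℝ) =>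
      |(conj (kG A k l) * TA (qw (Pc A s h) (bc A h) w) l).re|)
      (D0 (Pc A s h) (1 / Q ^ 50) (3 / 4 * sF T A h) (5 / 4 * sF T A h) 4) := by
    intro l w hw
    have h1 : ContinuousAt (fun q : XX => TA q l) (qw (Pc A s h) (bc A h) w) :=
      (H9.cd_TA 0 (D0_UX X w hw) l).continuousAt
    have h2 := h1.comp_of_eq (cont_qw (Pc A s h) (bc A h)).continuousAt rfl
    have h3 : ContinuousAt (fun w : ℝ × (Fin 3 → ℝ) =>
        (conj (kG A k l) * TA (qw (Pc A s h) (bc A h) w) l).re) w :=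
      continuous_re.continuousAt.comp (continuousAt_const.mul h2)
    exact h3.abs.continuousWithinAt
  have e : Ew T Q V s h k A = ⋂ l, (D0 (Pc A s h) (1 / Q ^ 50) (3 / 4 * sF T A h)
      (5 / 4 * sF T A h) 4 ∩ (fun w : ℝ × (Fin 3 → ℝ) =>
      |(conj (kG A k l) * TA (qw (Pc A s h) (bc A h) w) l).re|) ⁻¹' Set.Iic (Q ^ 2 * V l)) := by
    ext w
    rw [Set.mem_iInter]
    constructor
    · intro hw l
      exact ⟨hw.1, hw.2 l⟩
    · intro hw
      exact ⟨(hw 0).1, fun l => (hw l).2⟩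
  rw [e]
  exact (isClosed_iInter fun l => (hcl l).preimage_isClosed_of_isClosed hc
    isClosed_Iic).measurableSet

theorem shift_Ew (X : Ctr T Q V k0 s h k A) (j : ℕ) {w₀ w : ℝ × (Fin 3 → ℝ)}
    (hw₀ : w₀ ∈ Ew T Q V s h k A) (hw : w ∈ bx (r2 T Q V k0 h A j) (r1 T Q V k0) w₀) :
    w ∈ Ew' T Q V s h k A := by
  obtain ⟨hD0, hwin⟩ := hw₀
  have hQ := X.Q0
  have hQ1 := X.hQ
  have hS := X.S0
  have hk := X.k00
  have q5 := q50 X
  have q6 := q60 X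
  have e1 := r1_le' X
  have e2 := r2_le X j
  have hxK : xw (Pc A s h) w₀ ∈ KK := D0_KK X.std q5 (by norm_num) hD0
  obtain ⟨z1', z2', b0, b1, b2, bY⟩ := hD0
  have b0' : |(xw (Pc A s h) w₀).1 0| ≤ 1 / 32 := by
    show |w₀.2 0| ≤ _
    linarith
  have b1' : |(xw (Pc A s h) w₀).1 1| ≤ 1 / 32 := by
    show |w₀.2 1| ≤ _
    linarith
  have e3 : sF T A h * (1 / Q ^ 60) ≤ sF T A h * (1 / 64) :=
    mul_le_mul_of_nonneg_left q6 hS.le
  have hρ64 : r1 T Q V k0 ≤ 1 / 64 := e1.trans q6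
  set u : Fin 3 → ℝ := w.2 - w₀.2 with hu
  have hui : ∀ i, |u i| ≤ r1 T Q V k0 := fun i => hw.2 i
  have hρ0 : 0 ≤ r1 T Q V k0 := (abs_nonneg _).trans (hui 0)
  have hxu : xw (Pc A s h) w = xw (Pc A s h) w₀ + ins u := by
    unfold xw ins
    refine Prod.ext ?_ ?_
    · show w.2 = w₀.2 + u
      rw [hu]; abel
    · show Pc A s h = Pc A s h + 0
      rw [add_zero]
  have hseg : ∀ t ∈ Set.Icc (0 : ℝ) 1, xw (Pc A s h) w₀ + t • ins u ∈ KK := by
    intro t ht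
    have e1 : t • ins u = ins (t • u) := by
      unfold ins
      simp
    rw [e1]
    refine KK_shift (ρ := r1 T Q V k0) X.std b0' b1' b2 (fun l hl => (bY l hl).trans
      (by linarith)) (fun i => ?_) hρ64
    rw [Pi.smul_apply, smul_eq_mul, abs_mul, abs_of_nonneg ht.1]
    calc t * |u i| ≤ 1 * |u i| := mul_le_mul_of_nonneg_right ht.2 (abs_nonneg _)
      _ = |u i| := one_mul _
      _ ≤ _ := hui i
  have hwz : |w.1 - w₀.1| ≤ r2 T Q V k0 h A j := hw.1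
  have hwz' := abs_le.1 hwz
  have hw1 : sF T A h / 2 ≤ w.1 := by linarith [hwz'.1]
  have hw2 : w.1 ≤ 2 * sF T A h := by linarith [hwz'.2]
  have hwi : ∀ i, |w.2 i| ≤ |w₀.2 i| + r1 T Q V k0 := by
    intro i
    have e1 : w.2 i = w₀.2 i + u i := by rw [hu, Pi.sub_apply]; ring
    rw [e1]
    exact (abs_add_le _ _).trans (by linarith [hui i])
  refine ⟨hw1, hw2, ?_, ?_, ?_, fun l => ?_⟩
  · have := hwi 0
    linarith
  · have := hwi 1
    linarith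
  · have := hwi 2
    linarith
  · have h1 : 0 ≤ w₀.1 := by linarith
    have h2 : w₀.1 ≤ 2 * sF T A h := by linarith
    obtain ⟨-, -, -, -, -, -, -, hlast⟩ := X.ac (xw (Pc A s h) w₀) hxK (bc A h) X.bc_le w₀.1 h1
      (X.zz h2)
    have h3 := hlast u (r1 T Q V k0) w.1 hui (by linarith) (X.zz hw2) hseg l
    rw [← hxu] at h3
    have h4 : ‖TA (qw (Pc A s h) (bc A h) w) l - TA (qw (Pc A s h) (bc A h) w₀) l‖ ≤
        Q * (r1 T Q V k0 + |w.1 - w₀.1|) := h3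
    have h5 : (conj (kG A k l) * TA (qw (Pc A s h) (bc A h) w) l).re =
        (conj (kG A k l) * TA (qw (Pc A s h) (bc A h) w₀) l).re +
        (conj (kG A k l) * (TA (qw (Pc A s h) (bc A h) w) l -
          TA (qw (Pc A s h) (bc A h) w₀) l)).re := by
      rw [← add_re]
      congr 1
      ring
    have h6 : |(conj (kG A k l) * (TA (qw (Pc A s h) (bc A h) w) l -
          TA (qw (Pc A s h) (bc A h) w₀) l)).re| ≤
        (Q ^ 2 * k0) * (Q * (k0⁻¹ * (1 / Q ^ 60) + sF T A h * (1 / Q ^ 60))) := by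
      refine (abs_re_le_norm _).trans ?_
      rw [norm_mul, norm_conj]
      refine mul_le_mul ((norm_le_pi_norm _ _).trans X.kA2) (h4.trans ?_) (norm_nonneg _)
        (by positivity)
      refine mul_le_mul_of_nonneg_left ?_ hQ.le
      exact add_le_add (r1_le X) (hwz.trans e2)
    have h7 : (Q ^ 2 * k0) * (Q * (k0⁻¹ * (1 / Q ^ 60) + sF T A h * (1 / Q ^ 60))) =
        (1 / Q ^ 57) + (Q ^ 94 * (k0 * sF T A h)) * (1 / Q ^ 151) := by
      field_simp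
    have h8 : 1 / Q ^ 57 ≤ 1 := by
      rw [div_le_one (by positivity)]
      exact one_le_pow₀ X.Q1
    have h9 : (1 : ℝ) / Q ^ 151 ≤ 1 := by
      rw [div_le_one (by positivity)]
      exact one_le_pow₀ X.Q1
    have h10 : (Q ^ 94 * (k0 * sF T A h)) * (1 / Q ^ 151) ≤ 1 * 1 :=
      mul_le_mul X.kS1 h9 (by positivity) (by norm_num)
    have h11 : |(conj (kG A k l) * TA (qw (Pc A s h) (bc A h) w₀) l).re| ≤ Q ^ 2 * V l := hwin l
    have h12 := X.Vl l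
    rw [h5]
    refine (abs_add_le _ _).trans ?_
    have h13 : Q ^ 2 * V l + 2 ≤ Q ^ 3 * V l := by
      have h14 : Q ^ 3 * V l = Q * (Q ^ 2 * V l) := by ring
      have h15 : 1 ≤ Q ^ 2 * V l := by
        have h16 : 1 ≤ Q ^ 2 := one_le_pow₀ X.Q1
        nlinarith
      rw [h14]
      nlinarith
    linarith

end

/-- I3 -/
theorem i3 : I3Stmt := fun _T _Q _V _k0 _s _h _k _A j X =>
  ⟨meas_Ew X, fun _w₀ hw₀ _w hw => shift_Ew X j hw₀.2 hw⟩

end Pool.Agent.F5H.BC.H48
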