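import Pool.Agent.Helper30_F5K.StmtsR
import Pool.Agent.Helper92_F5H.ERB

/-!
MP_f5cbfa_nt, squad F5H, row R_HTS: sum of the measures for the first alternative (from `kc1` and `erb`).
-/

set_option autoImplicit false

open MeasureTheory Complex ComplexConjugate

namespace Pool.Agent.F5H.K2.H48

open Pool.Agent.Helper68_F5 Pool.Agent.F5H.W36 Pool.Agent.F5H.BC Pool.Agent.BTL Pool.Agent.F5S
  Pool.Agent.F5H Pool.Agent.F5H.K2.H30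

theorem fin_hts {K Q L V0 V1 V2 r m : ℝ} (hQ : 10001 ≤ Q) (hK0 : 0 ≤ K) (hK : K ≤ Q) (hL0 : 0 ≤ L)
    (hL : L ≤ Q ^ 2) (hV2 : 0 ≤ V2) (hr : 0 ≤ r) (hm : m ≤ Q ^ 2 * r) :
    K * (Q ^ 8) ^ 24 * L ^ 3 * ((Q ^ 2 * V0) ^ 2 * (Q ^ 2 * V1) ^ 2 * (Q ^ 2 * V2 * m)) *
      (1 + 10 ^ 4 * (Q ^ 9) ^ 5) ≤ Q ^ 300 * (V0 ^ 2 * V1 ^ 2 * (V2 * r)) := by
  have hQ1 : 1 ≤ Q := by linarith
  have hQ0 : 0 < Q := by linarith
  have e1 : 1 + 10 ^ 4 * (Q ^ 9) ^ 5 ≤ Q ^ 46 := by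
    have h1 : 1 ≤ Q ^ 45 := one_le_pow₀ hQ1
    calc 1 + 10 ^ 4 * (Q ^ 9) ^ 5 = 1 + 10000 * Q ^ 45 := by ring
      _ ≤ 10001 * Q ^ 45 := by linarith
      _ ≤ Q * Q ^ 45 := mul_le_mul_of_nonneg_right hQ (by positivity)
      _ = Q ^ 46 := by ring
  have e2 : Q ^ 2 * V2 * m ≤ Q ^ 2 * V2 * (Q ^ 2 * r) :=
    mul_le_mul_of_nonneg_left hm (by positivity)
  have e3 : (Q ^ 2 * V0) ^ 2 * (Q ^ 2 * V1) ^ 2 * (Q ^ 2 * V2 * m) ≤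
      Q ^ 12 * (V0 ^ 2 * V1 ^ 2 * (V2 * r)) := by
    calc (Q ^ 2 * V0) ^ 2 * (Q ^ 2 * V1) ^ 2 * (Q ^ 2 * V2 * m) ≤
        (Q ^ 2 * V0) ^ 2 * (Q ^ 2 * V1) ^ 2 * (Q ^ 2 * V2 * (Q ^ 2 * r)) :=
          mul_le_mul_of_nonneg_left e2 (by positivity)
      _ = _ := by ring
  have e4 : K * (Q ^ 8) ^ 24 * L ^ 3 ≤ Q * (Q ^ 8) ^ 24 * (Q ^ 2) ^ 3 :=
    mul_le_mul (mul_le_mul_of_nonneg_right hK (by positivity)) (pow_le_pow_left₀ hL0 hL 3)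
      (by positivity) (by positivity)
  have hZ : 0 ≤ V0 ^ 2 * V1 ^ 2 * (V2 * r) := by positivity
  have e5 : K * (Q ^ 8) ^ 24 * L ^ 3 * ((Q ^ 2 * V0) ^ 2 * (Q ^ 2 * V1) ^ 2 * (Q ^ 2 * V2 * m)) ≤
      Q * (Q ^ 8) ^ 24 * (Q ^ 2) ^ 3 * (Q ^ 12 * (V0 ^ 2 * V1 ^ 2 * (V2 * r))) := by
    refine le_trans (mul_le_mul_of_nonneg_left e3 (by positivity)) ?_
    exact mul_le_mul_of_nonneg_right e4 (by positivity)
  refine le_trans (mul_le_mul_of_nonneg_right e5 (by positivity)) ?_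
  refine le_trans (mul_le_mul_of_nonneg_left e1 (by positivity)) ?_
  have e6 : Q * (Q ^ 8) ^ 24 * (Q ^ 2) ^ 3 * (Q ^ 12 * (V0 ^ 2 * V1 ^ 2 * (V2 * r))) * Q ^ 46 =
      Q ^ 257 * (V0 ^ 2 * V1 ^ 2 * (V2 * r)) := by ring
  rw [e6]
  exact mul_le_mul_of_nonneg_right (pow_le_pow_right₀ hQ1 (by norm_num)) hZ

theorem hts : HTSStmt := by
  obtain ⟨K, hK, hkc⟩ := kc1
  refine ⟨300, by norm_num, max K 10001, ?_⟩
  intro T Q A V k0 del u z m₁ R₁ hQ0 hp hA 𝓗 𝓥 h𝓗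
  have hKQ : K ≤ Q := le_trans (le_max_left _ _) hQ0
  have hQ4 : 10001 ≤ Q := le_trans (le_max_right _ _) hQ0
  have hQ1 : 1 ≤ Q := by linarith
  have hQ : 0 < Q := by linarith
  have hQ2 : 1 ≤ Q ^ 2 := one_le_pow₀ hQ1
  have hQ3 : 1 ≤ Q ^ 3 := one_le_pow₀ hQ1
  have hT0 : 0 < T := by linarith [hp.hT]
  have hV2 : 1 ≤ V 2 := le_trans (one_le_pow₀ hQ1) hp.v2
  have hV1 : 1 ≤ V 1 := le_trans hV2 hp.v21
  have hV0 : 1 ≤ V 0 := le_trans hV1 hp.v10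
  have hsep := sep_gQ hQ1 hA
  have hr1 := hp.r1
  have hRk : R₁ ≤ k0 := by rw [hp.hR]; exact min_le_left _ _
  have hRs : R₁ ^ 2 ≤ V 0 * V 1 := by
    have h1 : R₁ ≤ √(V 0 * V 1) := by rw [hp.hR]; exact min_le_right _ _
    have h2 : 0 ≤ V 0 * V 1 := by positivity
    calc R₁ ^ 2 ≤ √(V 0 * V 1) ^ 2 := pow_le_pow_left₀ (by linarith [hp.R1]) h1 2
      _ = V 0 * V 1 := Real.sq_sqrt h2
  have hR1 := hp.R1
  have hk0 := hp.k1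
  have hkV := hp.kV
  have hz0 : 0 < z := by linarith [hp.z1]
  have hQV0 : Q ^ 8 ≤ Q ^ 2 * V 0 := by
    have h1 : Q ^ 6 ≤ V 0 := by
      refine le_trans (pow_le_pow_right₀ hQ1 (by norm_num : 6 ≤ 1000)) ?_
      exact le_trans hp.v2 (le_trans hp.v21 hp.v10)
    calc Q ^ 8 = Q ^ 2 * Q ^ 6 := by ring
      _ ≤ Q ^ 2 * V 0 := mul_le_mul_of_nonneg_left h1 (by positivity)
  have hw1 : 1 ≤ Q ^ 3 * max 1 (V 0 / z) := by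
    have : 1 ≤ max 1 (V 0 / z) := le_max_left _ _
    nlinarith
  have hw2 : 1 ≤ Q ^ 3 * max 1 (V 1 / z) := by
    have : 1 ≤ max 1 (V 1 / z) := le_max_left _ _
    nlinarith
  have hw : ∀ x : ℝ, 1 ≤ x → Q ^ 3 * max 1 (x / z) ≤ Q ^ 9 * max 1 (Q ^ 2 * x / z) := by
    intro x hx
    have h1 : Q ^ 3 ≤ Q ^ 9 := pow_le_pow_right₀ hQ1 (by norm_num)
    have h2 : max 1 (x / z) ≤ max 1 (Q ^ 2 * x / z) := by
      refine max_le_max le_rfl ?_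
      refine div_le_div_of_nonneg_right ?_ hz0.le
      nlinarith
    have h3 : 0 ≤ max 1 (x / z) := le_trans zero_le_one (le_max_left _ _)
    exact mul_le_mul h1 h2 h3 (by positivity)
  have hE : ∀ R, 1 ≤ R → R ≤ Q * R₁ + Q ^ 8 → ER R (Q ^ 2 * V 0) (Q ^ 2 * V 1)
      (Q ^ 3 * max 1 (V 0 / z)) (Q ^ 3 * max 1 (V 1 / z)) ≤ 10 ^ 4 * (Q ^ 9) ^ 5 := by
    intro R h1R hRle
    refine Pool.Agent.F5H.K2.H92.erb (Q ^ 9) (Q ^ 2 * V 0) (Q ^ 2 * V 1) k0 R R₁ z _ _ (one_le_pow₀ hQ1)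
      (by nlinarith) (mul_le_mul_of_nonneg_left hp.v10 (by positivity)) ?_ hk0 h1R hR1 ?_ hRk ?_
      hz0 ?_ hw1 hw2 (hw _ hV0) (hw _ hV1)
    · have h1 : Q ^ 2 ≤ Q ^ 4 := pow_le_pow_right₀ hQ1 (by norm_num)
      calc Q ^ 2 * V 0 ≤ Q ^ 4 * V 1 ^ 2 := mul_le_mul h1 hp.vsq (by linarith) (by positivity)
        _ = (Q ^ 2 * V 1) ^ 2 := by ring
    · have h1 : Q ≤ Q ^ 9 := le_self_pow₀ hQ1 (by norm_num)
      have h2 : Q ^ 8 ≤ Q ^ 9 := pow_le_pow_right₀ hQ1 (by norm_num)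
      have h3 : Q * R₁ ≤ Q ^ 9 * R₁ := mul_le_mul_of_nonneg_right h1 (by linarith)
      have h4 : Q ^ 8 ≤ Q ^ 9 * R₁ := by nlinarith
      linarith
    · have h1 : 1 ≤ Q ^ 4 := one_le_pow₀ hQ1
      have h2 : 0 ≤ V 0 * V 1 := by positivity
      calc R₁ ^ 2 ≤ V 0 * V 1 := hRs
        _ ≤ Q ^ 4 * (V 0 * V 1) := le_mul_of_one_le_left h2 h1
        _ = Q ^ 2 * V 0 * (Q ^ 2 * V 1) := by ring
    · refine le_trans hp.zr ?_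
      refine mul_le_mul_of_nonneg_left ?_ hz0.le
      rw [hp.hm]
      refine min_le_min le_rfl ?_
      exact le_mul_of_one_le_left (by linarith) hQ2
  have hmain := hkc (gQ Q A) hsep (Q ^ 8) ((Q * T) ^ 2) 0 (Q ^ 2 * (Rx T / T)) (Q * R₁)
    (Q ^ 3 * max 1 (V 0 / z)) (Q ^ 3 * max 1 (V 1 / z)) (Q ^ 2 * V 0) (Q ^ 2 * V 1) (Q ^ 2 * V 2)
    (10 ^ 4 * (Q ^ 9) ^ 5)
    (one_le_pow₀ hQ1) (by positivity) hp.v7 (by nlinarith)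
    (mul_le_mul_of_nonneg_left hp.v21 (by positivity))
    (mul_le_mul_of_nonneg_left hp.v10 (by positivity)) hQV0
    (by
      calc Q * R₁ ≤ Q * V 0 := mul_le_mul_of_nonneg_left (le_trans hRk hkV) hQ.le
        _ ≤ Q ^ 2 * V 0 := mul_le_mul_of_nonneg_right (le_self_pow₀ hQ1 (by norm_num)) (by linarith))
    (by nlinarith) hw1 hw2 le_rfl (by rw [mul_zero]; norm_num) (by positivity) hE 𝓗 𝓥
    (fun h hh => ⟨(h𝓗 h hh).1, (h𝓗 h hh).2.1, (h𝓗 h hh).2.2.1, (h𝓗 h hh).2.2.2.2⟩)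
  rw [Finset.sum_product_right] at hmain
  refine le_trans hmain (ENNReal.ofReal_le_ofReal ?_)
  have hL0 : 0 ≤ 1 + Real.log (Q ^ 2 * V 0) := by
    have : 0 ≤ Real.log (Q ^ 2 * V 0) := Real.log_nonneg (by nlinarith)
    linarith
  exact fin_hts hQ4 (by linarith) hKQ hL0 hp.hlog (by linarith) (by linarith) (min_le_left _ _)

end Pool.Agent.F5H.K2.H48
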